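import Pool.Agent.U36.SD.Stm

set_option autoImplicit false

/-!
Package TR of project SD (MP_2f3286_ag): integrality of the values from the values at a place above.
-/

open NumberField Polynomial IsDedekindDomain

namespace Pool.Agent.U324.SD

open Pool.Agent.TH954 Pool.Agent.U36.SD

section poly

variable {K M D : Type} [Field K] [Field M] [Field D] [Algebra K M] [Algebra K D]

/-- values of the coefficients -/
def PV (p : Plc K M D) (P : M[X]) (Q : D[X]) : Prop := ∀ i, p.val (P.coeff i) (Q.coeff i)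

variable {p : Plc K M D}

lemma PV.mul {P P' : M[X]} {Q Q' : D[X]} (h : PV p P Q) (h' : PV p P' Q') :
    PV p (P * P') (Q * Q') := by
  intro i
  rw [Polynomial.coeff_mul, Polynomial.coeff_mul]
  exact Plc.val_sum _ fun x _ => (h x.1).mul (h' x.2)

lemma PV.one : PV p 1 1 := by
  intro i
  rw [Polynomial.coeff_one, Polynomial.coeff_one]
  split_ifs
  · exact Plc.val_one
  · exact Plc.val_zero

lemma PV.lin {a : M} {c : D} (h : p.val a c) :
    PV p (X - Polynomial.C a) (X - Polynomial.C c) := by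
  intro i
  rw [Polynomial.coeff_sub, Polynomial.coeff_sub, Polynomial.coeff_X, Polynomial.coeff_X,
    Polynomial.coeff_C, Polynomial.coeff_C]
  apply Plc.val.sub
  · split_ifs
    · exact Plc.val_one
    · exact Plc.val_zero
  · split_ifs
    · exact h
    · exact Plc.val_zero

lemma PV.prod (A : Finset M) (f : M → D) (h : ∀ a ∈ A, p.val a (f a)) :
    PV p (∏ a ∈ A, (X - Polynomial.C a)) (∏ a ∈ A, (X - Polynomial.C (f a))) := by
  classical
  induction A using Finset.induction_on with
  | empty => rw [Finset.prod_empty, Finset.prod_empty]; exact PV.one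
  | insert a A ha ih =>
    rw [Finset.prod_insert ha, Finset.prod_insert ha]
    exact (PV.lin (h a (Finset.mem_insert_self _ _))).mul
      (ih fun b hb => h b (Finset.mem_insert_of_mem hb))

lemma coeff_fixed (A : Finset M) (σ : M →+* M) (h : ∀ a ∈ A, σ a ∈ A) (i : ℕ) :
    σ ((∏ a ∈ A, (X - Polynomial.C a)).coeff i) = (∏ a ∈ A, (X - Polynomial.C a)).coeff i := by
  have h1 : (∏ a ∈ A, (X - Polynomial.C a)).map σ = ∏ a ∈ A, (X - Polynomial.C a) := by
    rw [Polynomial.map_prod]
    simp only [Polynomial.map_sub, Polynomial.map_X, Polynomial.map_C]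
    have hinj : Set.InjOn σ A := σ.injective.injOn
    refine Finset.prod_nbij σ h hinj ?_ (fun a _ => rfl)
    exact Finset.surjOn_of_injOn_of_card_le σ h hinj le_rfl
  rw [← Polynomial.coeff_map, h1]

end poly

lemma integ {K F M B L : Type} [Field K] [NumberField K] [Field F] [Field M] [Field B] [Algebra K F]
    [Algebra F M] [Algebra K M] [IsScalarTower K F M] [Algebra K B] [IsAlgClosure K B]
    [Field L] [NumberField L] [Algebra K L] (s : GalSection K F M B)
    (w : HeightOneSpectrum (𝓞 L))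
    (p : Plc K M (AlgebraicClosure ((w.under (𝓞 K)).adicCompletion K)))
    (φ : AlgebraicClosure ((w.under (𝓞 K)).adicCompletion K) ≃+*
              AlgebraicClosure (w.adicCompletion L))
    (hp : s.GivenBy ((w.under (𝓞 K)).adicCompletion K) p)
    (hφ : ∀ x, φ (algebraMap ((w.under (𝓞 K)).adicCompletion K) _ x) =
      algebraMap (w.adicCompletion L) _ (Pool.Agent.U36.HV.phi w x))
    (A : Finset M) (hA : ∀ g, ∀ a ∈ A, s.s g a ∈ A)
    (hval : ∀ a ∈ A, ∃ c x, p.val a c ∧ φ c = algebraMap (w.adicCompletion L) _ x ∧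
      Valued.v x ≤ 1) :
    ∀ a ∈ A, ∀ c, p.val a c → IsIntegral ((w.under (𝓞 K)).adicCompletionIntegers K) c := by
  classical
  intro a ha c hc
  choose! f x hf hx hvx using hval
  set P : M[X] := ∏ a ∈ A, (X - Polynomial.C a) with hP
  set Q : (AlgebraicClosure ((w.under (𝓞 K)).adicCompletion K))[X] :=
    ∏ a ∈ A, (X - Polynomial.C (f a)) with hQ
  have hPQ : PV p P Q := PV.prod A f hf
  have hfix : ∀ i, ∀ g, s.s g (P.coeff i) = P.coeff i := fun i g =>
    coeff_fixed A ((s.s g : M ≃ₐ[F] M) : M →+* M) (hA g) i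
  have hr : ∀ i, ∃ r : (w.under (𝓞 K)).adicCompletion K, algebraMap _ _ r = Q.coeff i :=
    fun i => Pool.Agent.TH213.SEL.value_fixed hp (hfix i) (hPQ i)
  choose r hr using hr
  -- the coefficients above
  set S : (w.adicCompletion L)[X] := ∏ a ∈ A, (X - Polynomial.C (x a)) with hS
  have hSQ : Q.map (φ : _ →+* _) = S.map (algebraMap (w.adicCompletion L)
      (AlgebraicClosure (w.adicCompletion L))) := by
    rw [hQ, hS, Polynomial.map_prod, Polynomial.map_prod]
    refine Finset.prod_congr rfl fun b hb => ?_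
    rw [Polynomial.map_sub, Polynomial.map_sub, Polynomial.map_X, Polynomial.map_X,
      Polynomial.map_C, Polynomial.map_C, ← hx b hb]
    rfl
  have hphi : ∀ i, Pool.Agent.U36.HV.phi w (r i) = S.coeff i := by
    intro i
    apply (algebraMap (w.adicCompletion L) (AlgebraicClosure (w.adicCompletion L))).injective
    rw [← hφ, hr, ← Polynomial.coeff_map, ← hSQ, Polynomial.coeff_map]
    rfl
  have hSint : ∀ i, Valued.v (S.coeff i) ≤ 1 := by
    have hl : S ∈ Polynomial.lifts (w.adicCompletionIntegers L).subtype := by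
      rw [hS]
      refine prod_mem fun b hb => ?_
      have e1 : (X - Polynomial.C (x b) : (w.adicCompletion L)[X]) = X + Polynomial.C (-x b) := by
        rw [Polynomial.C_neg, sub_eq_add_neg]
      have hmem : x b ∈ w.adicCompletionIntegers L := hvx b hb
      rw [e1]
      exact add_mem (Polynomial.X_mem_lifts _) (Polynomial.C_mem_lifts
        (w.adicCompletionIntegers L).subtype ⟨-x b, neg_mem hmem⟩)
    intro i
    obtain ⟨y, hy⟩ := (Polynomial.lifts_iff_coeff_lifts S).1 hl i
    rw [← hy]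
    exact y.2
  obtain ⟨e, he0, he⟩ := Pool.Agent.U36.HV.phi_val (F := K) w
  have hrint : ∀ i, Valued.v (r i) ≤ 1 := by
    intro i
    have h1 := hSint i
    rw [← hphi, he] at h1
    exact (pow_le_one_iff he0).1 h1
  -- the polynomial over the integers
  have hQl : Q ∈ Polynomial.lifts (algebraMap ((w.under (𝓞 K)).adicCompletionIntegers K)
      (AlgebraicClosure ((w.under (𝓞 K)).adicCompletion K))) := by
    rw [Polynomial.lifts_iff_coeff_lifts]
    intro i
    exact ⟨⟨r i, hrint i⟩, hr i⟩
  have hQm : Q.Monic := Polynomial.monic_prod_of_monic _ _ fun b _ => Polynomial.monic_X_sub_C _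
  obtain ⟨R, hR, -, hRm⟩ := Polynomial.lifts_and_natDegree_eq_and_monic hQl hQm
  refine ⟨R, hRm, ?_⟩
  rw [← Polynomial.eval_map, hR, hQ, Polynomial.eval_prod]
  apply Finset.prod_eq_zero ha
  rw [Polynomial.eval_sub, Polynomial.eval_X, Polynomial.eval_C, (hf a ha).unique hc, sub_self]

theorem t_TR : S_TR := by
  classical
  intro K F M B L _ _ _ _ _ _ _ _ _ _ _ _ _ _ _ s w p φ hp hφ A hA hval a ha c hc
  refine ⟨integ s w p φ hp hφ A hA (fun b hb => ?_) a ha c hc, ?_⟩
  · obtain ⟨c, x, h1, h2, h3⟩ := hval b hb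
    exact ⟨c, x, h1, h2, h3.le⟩
  · have hne : ∀ b ∈ A, ∀ d, p.val b d → d ≠ 0 := by
      intro b hb d hd h0
      obtain ⟨c, x, h1, h2, h3⟩ := hval b hb
      have h4 := h1.unique hd
      rw [h0] at h4
      rw [h4, map_zero] at h2
      have h5 : x = 0 := ((map_eq_zero _).1 h2.symm)
      rw [h5, map_zero] at h3
      exact zero_ne_one h3
    refine integ s w p φ hp hφ (A.image (·⁻¹)) ?_ ?_ a⁻¹ (Finset.mem_image_of_mem _ ha) c⁻¹
      (hc.inv (hne a ha c hc))
    · intro g b hb
      obtain ⟨b', hb', rfl⟩ := Finset.mem_image.1 hb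
      rw [map_inv₀]
      exact Finset.mem_image_of_mem _ (hA g b' hb')
    · intro b hb
      obtain ⟨b', hb', rfl⟩ := Finset.mem_image.1 hb
      obtain ⟨c, x, h1, h2, h3⟩ := hval b' hb'
      refine ⟨c⁻¹, x⁻¹, h1.inv (hne b' hb' c h1), ?_, ?_⟩
      · rw [map_inv₀, map_inv₀, h2]
      · rw [map_inv₀, h3, inv_one]

end Pool.Agent.U324.SD
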